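import Pool.Agent.TH120.HM.Cor
import Pool.Agent.TH550.NRZ.Elim

/-!
# The values `2πi` and `ζ(3)` of the KZ associator: degree at most `3`

`μ = 2πi` and `ζ(3)` (up to sign the coefficients in degree `3` of the logarithm of the KZ associator) satisfy no
relation in the span of `1, μ, μ², μ³, φ, μφ`, with an explicit measure, and the near relations between these six numbers
and `r` arbitrary complex numbers span, at every scale, a space of dimension at most `r`.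

The proof uses the library's measure of linear independence of `1, ζ(2), ζ(3)` with the exponent `227`
(`Pool.Agent.TH120.HM.measure_all`) and the weighted elimination of arbitrary numbers
(`Pool.Agent.TH550.NRZ.siegel_weighted`).
-/

set_option autoImplicit false

namespace Pool.Agent.Results.MP_807c24_nt.DegreeAtMostThree

open Real

/-- `μ = 2πi` -/
noncomputable def mu : ℂ := 2 * π * Complex.I

/-- `ζ(3)` -/
noncomputable def zeta3 : ℝ := ∑' n : ℕ, 1 / ((n : ℝ) + 1) ^ 3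

/-- the value of `P_0 + P_1 μ + P_2 μ² + P_3 μ³ + P_4 φ + P_5 μ φ` at `μ = 2πi`, `φ = ζ(3)` -/
noncomputable def value (P : Fin 6 → ℤ) : ℂ :=
  P 0 + P 1 * mu + P 2 * mu ^ 2 + P 3 * mu ^ 3 + P 4 * zeta3 + P 5 * (mu * zeta3)

open Pool.Agent.TH550.NRZ

/-- **Product inequality** for complex linear forms, elimination of arbitrary complex numbers. -/
theorem core {n : ℕ} (v : Fin n → ℂ) (κ : ℕ) (c : ℝ) (hc : 0 < c)
    (hm : ∀ P : Fin n → ℤ, P ≠ 0 → ∀ H : ℝ, 1 ≤ H → (∀ i, |(P i : ℝ)| ≤ H) →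
      c / H ^ κ ≤ ‖∑ i, (P i : ℂ) * v i‖) (r : ℕ) :
    ∃ c' : ℝ, 0 < c' ∧ ∀ (t : Fin r → ℂ) (P : Fin (r + 1) → Fin n → ℤ) (e : Fin (r + 1) → Fin r → ℤ)
      (h : Fin (r + 1) → ℝ), LinearIndependent ℤ (fun k => (P k, e k)) →
      (∀ k, 1 ≤ h k ∧ (∀ i, |(P k i : ℝ)| ≤ h k) ∧ ∀ i, |(e k i : ℝ)| ≤ h k) →
      c' * ∏ k, (h k ^ (κ + 1))⁻¹ ≤
        ∑ k, ‖(∑ i, (P k i : ℂ) * v i) + ∑ i, (e k i : ℂ) * t i‖ / h k := by
  obtain ⟨C, hC1, hCdef⟩ : ∃ C : ℝ, 1 ≤ C ∧ C = ((2 * r + 3 : ℕ) : ℝ) ^ r := by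
    refine ⟨_, ?_, rfl⟩
    apply one_le_pow₀
    norm_cast
    omega
  have hC0 : 0 < C := by linarith
  refine ⟨c / (C * (((r : ℝ) + 1) * C) ^ κ), by positivity, ?_⟩
  intro t P e h hli hh
  have h1 : ∀ k, 1 ≤ h k := fun k => (hh k).1
  have hh0 : ∀ k, 0 < h k := fun k => lt_of_lt_of_le one_pos (h1 k)
  obtain ⟨l, hl0, hl, hlb⟩ := siegel_weighted r e h h1 (fun k j => (hh k).2.2 j)
  obtain ⟨H, hHdef⟩ : ∃ H : ℝ, H = ∏ k, h k := ⟨_, rfl⟩
  have hH1 : 1 ≤ H := by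
    rw [hHdef]
    exact one_le_prod_real _ h1
  have hH0 : 0 < H := by linarith
  have hlb' : ∀ k, |(l k : ℝ)| * h k ≤ C * H := by
    intro k
    have h2 := hlb k
    rw [← hHdef, ← hCdef] at h2
    exact h2
  obtain ⟨A, hA⟩ : ∃ A : Fin n → ℤ, A = fun j => ∑ k, l k * P k j := ⟨_, rfl⟩
  have hA0 : A ≠ 0 := by
    intro hcon
    apply hl0
    have h2 : ∑ k, l k • (P k, e k) = 0 := by
      rw [Prod.ext_iff]
      constructor
      · rw [Prod.fst_sum]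
        funext j
        rw [Finset.sum_apply]
        have := congrFun hcon j
        simpa [hA] using this
      · rw [Prod.snd_sum]
        funext j
        rw [Finset.sum_apply]
        have := hl j
        simpa using this
    have := Fintype.linearIndependent_iff.1 hli l h2
    funext i
    exact this i
  have hAb : ∀ j, |(A j : ℝ)| ≤ ((r : ℝ) + 1) * C * H := by
    intro j
    simp only [hA]
    push_cast
    calc |∑ k, (l k : ℝ) * (P k j : ℝ)| ≤ ∑ k, |(l k : ℝ) * (P k j : ℝ)| :=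
          Finset.abs_sum_le_sum_abs _ _
      _ ≤ ∑ _k : Fin (r + 1), C * H := by
          refine Finset.sum_le_sum fun k _ => ?_
          rw [abs_mul]
          calc |(l k : ℝ)| * |(P k j : ℝ)| ≤ |(l k : ℝ)| * h k := by
                gcongr
                exact (hh k).2.1 j
            _ ≤ C * H := hlb' k
      _ = ((r : ℝ) + 1) * C * H := by
          rw [Finset.sum_const, Finset.card_univ, Fintype.card_fin, nsmul_eq_mul]
          push_cast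
          ring
  have hr0 : (0 : ℝ) ≤ r := Nat.cast_nonneg r
  have hbig : 1 ≤ ((r : ℝ) + 1) * C * H := by
    have h2 : 1 ≤ ((r : ℝ) + 1) * C := by nlinarith
    nlinarith
  have hlow := hm A hA0 _ hbig hAb
  have hsum : ∑ j, (A j : ℂ) * v j =
      ∑ k, (l k : ℂ) * ((∑ i, (P k i : ℂ) * v i) + ∑ i, (e k i : ℂ) * t i) := by
    have h2 : ∑ k, (l k : ℂ) * ∑ j, (e k j : ℂ) * t j = 0 := by
      calc ∑ k, (l k : ℂ) * ∑ j, (e k j : ℂ) * t j
          = ∑ j, (∑ k, (l k : ℂ) * (e k j : ℂ)) * t j := by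
            simp only [Finset.mul_sum, Finset.sum_mul]
            rw [Finset.sum_comm]
            refine Finset.sum_congr rfl fun j _ => Finset.sum_congr rfl fun i _ => ?_
            ring
        _ = 0 := by
            refine Finset.sum_eq_zero fun j _ => ?_
            have h3 : (∑ k, (l k : ℂ) * (e k j : ℂ)) = 0 := by exact_mod_cast hl j
            rw [h3, zero_mul]
    simp only [mul_add, Finset.sum_add_distrib]
    rw [h2, add_zero, hA]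
    push_cast
    simp only [Finset.mul_sum, Finset.sum_mul]
    rw [Finset.sum_comm]
    refine Finset.sum_congr rfl fun i _ => Finset.sum_congr rfl fun j _ => ?_
    ring
  have hup : ‖∑ j, (A j : ℂ) * v j‖ ≤ C * H *
      ∑ k, ‖(∑ i, (P k i : ℂ) * v i) + ∑ i, (e k i : ℂ) * t i‖ / h k := by
    rw [hsum, Finset.mul_sum]
    refine (norm_sum_le _ _).trans (Finset.sum_le_sum fun k _ => ?_)
    rw [norm_mul, Complex.norm_intCast]
    calc |(l k : ℝ)| * ‖(∑ i, (P k i : ℂ) * v i) + ∑ i, (e k i : ℂ) * t i‖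
        = (|(l k : ℝ)| * h k) * (‖(∑ i, (P k i : ℂ) * v i) + ∑ i, (e k i : ℂ) * t i‖ / h k) := by
          have := (hh0 k).ne'
          field_simp
      _ ≤ C * H * (‖(∑ i, (P k i : ℂ) * v i) + ∑ i, (e k i : ℂ) * t i‖ / h k) := by
          exact mul_le_mul_of_nonneg_right (hlb' k) (div_nonneg (norm_nonneg _) (hh0 k).le)
  have hprod : ∏ k, (h k ^ (κ + 1))⁻¹ = (H ^ (κ + 1))⁻¹ := by
    rw [Finset.prod_inv_distrib, Finset.prod_pow, ← hHdef]
  rw [hprod]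
  obtain ⟨S, hS⟩ : ∃ S : ℝ, S = ∑ k, ‖(∑ i, (P k i : ℂ) * v i) + ∑ i, (e k i : ℂ) * t i‖ / h k := ⟨_, rfl⟩
  rw [← hS] at hup ⊢
  have h5 : c / (((r : ℝ) + 1) * C * H) ^ κ ≤ C * H * S := hlow.trans hup
  have h6 : 0 < C * H := mul_pos hC0 hH0
  calc c / (C * (((r : ℝ) + 1) * C) ^ κ) * (H ^ (κ + 1))⁻¹
      = (c / (((r : ℝ) + 1) * C * H) ^ κ) / (C * H) := by
        rw [mul_pow (((r : ℝ) + 1) * C) H κ, pow_succ H κ]
        field_simp
    _ ≤ S := by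
        rw [div_le_iff₀ h6]
        linarith

lemma value_eq (P : Fin 6 → ℤ) :
    ∑ i, (P i : ℂ) * (![1, mu, mu ^ 2, mu ^ 3, zeta3, mu * zeta3] : Fin 6 → ℂ) i = value P := by
  simp [Fin.sum_univ_succ, value]
  ring

lemma mu_re : mu.re = 0 := by simp [mu]

lemma mu_im : mu.im = 2 * π := by simp [mu]

lemma value_parts (P : Fin 6 → ℤ) : (value P).re = (P 0 : ℝ) - 4 * π ^ 2 * P 2 + P 4 * zeta3 ∧
    (value P).im = 2 * π * ((P 1 : ℝ) - 4 * π ^ 2 * P 3 + P 5 * zeta3) := by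
  obtain ⟨q, hq⟩ : ∃ q : ℝ, q = -(4 * π ^ 2) := ⟨_, rfl⟩
  have h2 : mu ^ 2 = (q : ℂ) := by
    rw [mu, hq, mul_pow, mul_pow, Complex.I_sq]
    push_cast
    ring
  have h3 : mu ^ 3 = (q : ℂ) * mu := by rw [pow_succ, h2]
  rw [value, h2, h3]
  constructor
  · simp [mu_re, mu_im]
    rw [hq]
    ring
  · simp [mu_re, mu_im]
    rw [hq]
    ring

lemma value_re (P : Fin 6 → ℤ) : (value P).re = (P 0 : ℝ) - 4 * π ^ 2 * P 2 + P 4 * zeta3 :=
  (value_parts P).1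

lemma value_im (P : Fin 6 → ℤ) :
    (value P).im = 2 * π * ((P 1 : ℝ) - 4 * π ^ 2 * P 3 + P 5 * zeta3) := (value_parts P).2

/-- the real measure -/
lemma real_measure : ∃ c : ℝ, 0 < c ∧ ∀ (a b d : ℤ) (H : ℝ), 1 ≤ H → ¬ (a = 0 ∧ b = 0 ∧ d = 0) →
    |(b : ℝ)| ≤ H → |(d : ℝ)| ≤ H → c / H ^ 227 ≤ |(a : ℝ) - 4 * π ^ 2 * b + d * zeta3| := by
  obtain ⟨c, hc, h⟩ := Pool.Agent.TH120.HM.measure_all
  refine ⟨c / 24 ^ 227, by positivity, fun a b d H hH h0 hb hd => ?_⟩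
  have hH0 : 0 < H := by linarith
  have h1 := h a (-24 * b) d (24 * H) (by linarith) (by
    rintro ⟨g0, g1, g2⟩
    exact h0 ⟨g0, by omega, g2⟩) (by
    push_cast
    rw [abs_mul]
    norm_num
    linarith) (by linarith)
  have e1 : (24 * H) ^ (-227 : ℝ) = ((24 : ℝ) ^ 227)⁻¹ * (H ^ 227)⁻¹ := by
    rw [Real.rpow_neg (by positivity), ← mul_inv, ← mul_pow]
    congr 1
    rw [← Real.rpow_natCast]
    norm_num
  have e2 : (a : ℝ) + ((-24 * b : ℤ) : ℝ) * Pool.Agent.H337R2.zr 2 + d * Pool.Agent.H337R2.zr 3 =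
      (a : ℝ) - 4 * π ^ 2 * b + d * zeta3 := by
    rw [Pool.Agent.LZ.Z2_value]
    push_cast
    have : Pool.Agent.H337R2.zr 3 = zeta3 := rfl
    rw [this]
    ring
  rw [e1, e2] at h1
  calc c / 24 ^ 227 / H ^ 227 = c * (((24 : ℝ) ^ 227)⁻¹ * (H ^ 227)⁻¹) := by
        rw [div_eq_mul_inv, div_eq_mul_inv]
        ring
    _ ≤ _ := h1

/-- the measure -/
lemma measure : ∃ c : ℝ, 0 < c ∧ ∀ P : Fin 6 → ℤ, P ≠ 0 → ∀ H : ℝ, 1 ≤ H → (∀ i, |(P i : ℝ)| ≤ H) →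
    c / H ^ 227 ≤ ‖value P‖ := by
  obtain ⟨c, hc, h⟩ := real_measure
  refine ⟨c, hc, fun P hP H hH hPH => ?_⟩
  have hH0 : 0 < H := by linarith
  by_cases h0 : P 0 = 0 ∧ P 2 = 0 ∧ P 4 = 0
  · have h1 : ¬ (P 1 = 0 ∧ P 3 = 0 ∧ P 5 = 0) := by
      rintro ⟨g1, g3, g5⟩
      apply hP
      funext i
      fin_cases i
      · exact h0.1
      · exact g1
      · exact h0.2.1
      · exact g3
      · exact h0.2.2
      · exact g5
    have h2 := h (P 1) (P 3) (P 5) H hH h1 (hPH 3) (hPH 5)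
    have h3 : |(value P).im| ≤ ‖value P‖ := Complex.abs_im_le_norm _
    rw [value_im, abs_mul] at h3
    have h4 : (1 : ℝ) ≤ |2 * π| := by
      rw [abs_of_pos (by positivity)]
      linarith [Real.pi_gt_three]
    have h5 : (0 : ℝ) ≤ |(P 1 : ℝ) - 4 * π ^ 2 * P 3 + P 5 * zeta3| := abs_nonneg _
    nlinarith
  · have h2 := h (P 0) (P 2) (P 4) H hH h0 (hPH 2) (hPH 4)
    have h3 : |(value P).re| ≤ ‖value P‖ := Complex.abs_re_le_norm _
    rw [value_re] at h3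
    linarith

/-- the product inequality -/
lemma product (r : ℕ) : ∃ c : ℝ, 0 < c ∧ ∀ (t : Fin r → ℂ) (P : Fin (r + 1) → Fin 6 → ℤ)
      (e : Fin (r + 1) → Fin r → ℤ) (h : Fin (r + 1) → ℝ), LinearIndependent ℤ (fun k => (P k, e k)) →
      (∀ k, 1 ≤ h k ∧ (∀ i, |(P k i : ℝ)| ≤ h k) ∧ ∀ i, |(e k i : ℝ)| ≤ h k) →
      c * ∏ k, (h k ^ 228)⁻¹ ≤ ∑ k, ‖value (P k) + ∑ i, (e k i : ℂ) * t i‖ / h k := by
  obtain ⟨c, hc, h⟩ := measure
  obtain ⟨c', hc', h'⟩ := core (![1, mu, mu ^ 2, mu ^ 3, zeta3, mu * zeta3] : Fin 6 → ℂ) 227 c hc (by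
    intro P hP H hH hPH
    rw [value_eq]
    exact h P hP H hH hPH) r
  refine ⟨c', hc', fun t P e h hli hh => ?_⟩
  have h2 := h' t P e h hli hh
  simp only [value_eq] at h2
  exact h2

/-- near relations at one scale are linearly dependent -/
lemma scale (r : ℕ) : ∃ c : ℝ, 0 < c ∧ ∀ (t : Fin r → ℂ) (X : ℝ), 1 ≤ X →
      ∀ (P : Fin (r + 1) → Fin 6 → ℤ) (e : Fin (r + 1) → Fin r → ℤ),
      (∀ k, (∀ i, |(P k i : ℝ)| ≤ X) ∧ (∀ i, |(e k i : ℝ)| ≤ X) ∧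
        ‖value (P k) + ∑ i, (e k i : ℂ) * t i‖ < c / X ^ (228 * r + 227)) →
      ¬ LinearIndependent ℤ (fun k => (P k, e k)) := by
  obtain ⟨c, hc, h⟩ := product r
  refine ⟨c / ((r : ℝ) + 1), by positivity, fun t X hX P e hPe hli => ?_⟩
  have hX0 : 0 < X := by linarith
  have h1 := h t P e (fun _ => X) hli (fun k => ⟨hX, (hPe k).1, (hPe k).2.1⟩)
  have h2 : ∑ k, ‖value (P k) + ∑ i, (e k i : ℂ) * t i‖ / X <
      ∑ _k : Fin (r + 1), c / ((r : ℝ) + 1) / X ^ (228 * r + 227) / X := by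
    refine Finset.sum_lt_sum_of_nonempty ⟨0, Finset.mem_univ _⟩ fun k _ => ?_
    exact div_lt_div_of_pos_right (hPe k).2.2 hX0
  rw [Finset.sum_const, Finset.card_univ, Fintype.card_fin, nsmul_eq_mul] at h2
  rw [Finset.prod_const, Finset.card_univ, Fintype.card_fin] at h1
  have e1 : ((r + 1 : ℕ) : ℝ) * (c / ((r : ℝ) + 1) / X ^ (228 * r + 227) / X) = c * (X ^ 228)⁻¹ ^ (r + 1) := by
    have e2 : (X ^ 228)⁻¹ ^ (r + 1) = (X ^ (228 * r + 227) * X)⁻¹ := by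
      rw [inv_pow, ← pow_mul, ← pow_succ]
      congr 2
    rw [e2]
    push_cast
    have : (0 : ℝ) < (r : ℝ) + 1 := by positivity
    field_simp
  linarith

/-- Let `μ = 2πi` and `φ = ζ(3)`.

1. For every integer `m` there is `c > 0` such that for all integers `P_0, …, P_5`, not all zero, of size at most `H`
(`H ≥ 1`), `|μ ^ m (P_0 + P_1 μ + P_2 μ² + P_3 μ³ + P_4 φ + P_5 μ φ)| ≥ c H ^ (-227)`.
2. For every `r` there is `c > 0` such that for all complex numbers `t_1, …, t_r` and all `r + 1` linearly independent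
integer vectors `(P_k; e_k)` of size at most `h_k`, `c ∏ h_k ^ (-228) ≤ ∑ |P_k(μ, φ) + ∑ e_{k,i} t_i| / h_k`.
3. For every `r` there is `c > 0` such that for all complex numbers `t_1, …, t_r` and every `X ≥ 1` any `r + 1` integer
vectors `(P_k; e_k)` of size at most `X` with `|P_k(μ, φ) + ∑ e_{k,i} t_i| < c X ^ (-(228 r + 227))` are linearly
dependent. -/
theorem result :
    (∀ m : ℤ, ∃ c : ℝ, 0 < c ∧ ∀ P : Fin 6 → ℤ, P ≠ 0 → ∀ H : ℝ, 1 ≤ H → (∀ i, |(P i : ℝ)| ≤ H) →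
      c / H ^ 227 ≤ ‖mu ^ m * value P‖) ∧
    (∀ r : ℕ, ∃ c : ℝ, 0 < c ∧ ∀ (t : Fin r → ℂ) (P : Fin (r + 1) → Fin 6 → ℤ)
      (e : Fin (r + 1) → Fin r → ℤ) (h : Fin (r + 1) → ℝ), LinearIndependent ℤ (fun k => (P k, e k)) →
      (∀ k, 1 ≤ h k ∧ (∀ i, |(P k i : ℝ)| ≤ h k) ∧ ∀ i, |(e k i : ℝ)| ≤ h k) →
      c * ∏ k, (h k ^ 228)⁻¹ ≤ ∑ k, ‖value (P k) + ∑ i, (e k i : ℂ) * t i‖ / h k) ∧
    (∀ r : ℕ, ∃ c : ℝ, 0 < c ∧ ∀ (t : Fin r → ℂ) (X : ℝ), 1 ≤ X →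
      ∀ (P : Fin (r + 1) → Fin 6 → ℤ) (e : Fin (r + 1) → Fin r → ℤ),
      (∀ k, (∀ i, |(P k i : ℝ)| ≤ X) ∧ (∀ i, |(e k i : ℝ)| ≤ X) ∧
        ‖value (P k) + ∑ i, (e k i : ℂ) * t i‖ < c / X ^ (228 * r + 227)) →
      ¬ LinearIndependent ℤ (fun k => (P k, e k))) := by
  refine ⟨fun m => ?_, product, scale⟩
  obtain ⟨c, hc, h⟩ := measure
  have hmu : mu ≠ 0 := by
    intro h0
    have := mu_im
    rw [h0, Complex.zero_im] at this
    linarith [Real.pi_pos]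
  have hm : 0 < ‖mu ^ m‖ := norm_pos_iff.2 (zpow_ne_zero m hmu)
  refine ⟨‖mu ^ m‖ * c, by positivity, fun P hP H hH hPH => ?_⟩
  rw [norm_mul, mul_div_assoc]
  exact mul_le_mul_of_nonneg_left (h P hP H hH hPH) hm.le

end Pool.Agent.Results.MP_807c24_nt.DegreeAtMostThree
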