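import Pool.Agent.Results.MP_807c24_nt.DegreeAtMostThree
import Pool.Agent.H223.PS.MZC

/-!
# Relations between the coefficients of the KZ associator: ALL coefficient vectors in the residue classes of almost every
`p`-adic point, and near almost every direction

Let `μ = 2πi`, `φ = ζ(3)` and let `t_1, …, t_r` be arbitrary complex numbers, for instance coefficients of the KZ associator and
monomials in them. It is not known that `1, μ, μ², μ³, φ, μφ, t_1, …, t_r` are linearly independent over `ℚ` if for instance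
`t_1 = φ²` or `t_1 = ζ(5)`. We prove lower bounds for the numbers

`|a + q_1 μ + q_2 μ² + q_3 μ³ + q_4 φ + q_5 μ φ + q_6 t_1 + … + q_(r+5) t_r|`, `a` any integer,

1. for ALL integer vectors `q` with `|q_i| ≤ T`, `|q_i - α_i|_p ≤ T ^ (-σ)`, `T` large, for every prime `p` and all
   `α ∈ ℤ_p ^ (r + 5)` outside of a set of Hausdorff dimension at most `r / σ` (so for almost all `α` if `σ > r / (r + 5)`; for
   `σ < 1` there are about `T ^ ((r + 5) (1 - σ))` such vectors `q`),
2. for ALL integer vectors `q` with `|q_i - β_i v_j| ≤ v_j ^ θ`, `j` large, for all `β ∈ ℝ ^ (r + 5)` outside of a set of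
   dimension at most `(r + τ) / (1 - θ)`, where `v` is a sequence of exponent of convergence at most `τ` (`0` for `v_j = b ^ j`).

The bounds are `c T ^ (-(228 r + 227))` and `c v_j ^ (-(228 r + 227))`. The proof uses the theorem of helper307
(`DegreeAtMostThree`) that the near relations at one scale span a space of dimension at most `r`: so there are at most `C X ^ r`
exceptional `q` of norm at most `X`, and almost no point is close to infinitely many of them.
-/

set_option autoImplicit false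

open MeasureTheory

namespace Pool.Agent.Results.MP_807c24_nt.RelationsInResidueClasses

open DegreeAtMostThree (mu zeta3 value)

/-- the number `a + q_1 μ + q_2 μ² + q_3 μ³ + q_4 φ + q_5 μ φ + e_1 t_1 + … + e_r t_r`, `μ = 2πi`, `φ = ζ(3)`; the index set of
the coefficients is the disjoint union of five elements (`Sum.inl i`) and `r` elements (`Sum.inr i`) -/
noncomputable def form {r : ℕ} (t : Fin r → ℂ) (q : Fin 5 ⊕ Fin r → ℤ) (a : ℤ) : ℂ :=
  a + q (.inl 0) * mu + q (.inl 1) * mu ^ 2 + q (.inl 2) * mu ^ 3 + q (.inl 3) * zeta3 + q (.inl 4) * (mu * zeta3) +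
    ∑ i, (q (.inr i) : ℂ) * t i

/-- the exponent of convergence of the sequence `v` is at most `τ` -/
def ExpLe (v : ℕ → ℝ) (τ : ℝ) : Prop := ∀ s : ℝ, τ < s → Summable (fun j : ℕ => (v j) ^ (-s))

/-- the numbers `μ, μ², μ³, φ, μφ, t_1, …, t_r` -/
noncomputable def nums {r : ℕ} (t : Fin r → ℂ) : Fin 5 ⊕ Fin r → ℂ :=
  Sum.elim ![mu, mu ^ 2, mu ^ 3, (zeta3 : ℂ), mu * zeta3] t

lemma form_eq {r : ℕ} (t : Fin r → ℂ) (q : Fin 5 ⊕ Fin r → ℤ) (a : ℤ) :
    form t q a = Pool.Agent.H223.PS.valC (nums t) q a := by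
  unfold form Pool.Agent.H223.PS.valC nums
  rw [Fintype.sum_sum_type, Fin.sum_univ_five]
  simp only [Sum.elim_inl, Sum.elim_inr, Matrix.cons_val]
  ring

/-- the coefficient vectors as pairs -/
def pairs {r : ℕ} : (Option (Fin 5 ⊕ Fin r) → ℤ) →ₗ[ℤ] (Fin 6 → ℤ) × (Fin r → ℤ) where
  toFun b := (fun i => b (Fin.cases none (fun k => some (.inl k)) i), fun i => b (some (.inr i)))
  map_add' _ _ := rfl
  map_smul' _ _ := rfl

lemma pairs_inj {r : ℕ} : Function.Injective (pairs (r := r)) := by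
  intro b b' h
  have h1 := congrArg Prod.fst h
  have h2 := congrArg Prod.snd h
  funext o
  match o with
  | none => exact congrFun h1 0
  | some (.inl k) => exact congrFun h1 k.succ
  | some (.inr k) => exact congrFun h2 k

/-- **Theorem.** For every `r` there is `m` (`m = 228 r + 227`) such that for all complex `t_1, …, t_r` there is `c > 0` with:
(1) for every prime `p` and `σ > 0`, for all `α ∈ ℤ_p ^ (r + 5)` outside of a set of Hausdorff dimension at most `r / σ` and all
large `T`, for ALL integer vectors `q` with `|q_i| ≤ T`, `|q_i - α_i|_p ≤ T ^ (-σ)` and all integers `a`, `|form| ≥ c / T ^ m`;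
(2) for every sequence `v_j ≥ 1` of exponent of convergence at most `τ` and `θ < 1`, for all `β ∈ ℝ ^ (r + 5)` outside of a set of
dimension at most `(r + τ) / (1 - θ)` there is `c' > 0` such that for all large `j` and ALL integer vectors `q` with
`|q_i - β_i v_j| ≤ v_j ^ θ` and all integers `a`, `|form| ≥ c' / v_j ^ m`. (3) The sequences `(j + 1) ^ s` and `b ^ j` have exponent
of convergence at most `1 / s` and `0`. -/
theorem result :
    (∀ (r : ℕ) (t : Fin r → ℂ), ∃ c : ℝ, 0 < c ∧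
      (∀ (p : ℕ) [Fact p.Prime] (σ : ℝ), 0 < σ → ∃ E : Set (Fin 5 ⊕ Fin r → ℤ_[p]),
        dimH E ≤ ENNReal.ofReal (r / σ) ∧
        ∀ α ∉ E, ∃ T₀ : ℝ, ∀ T ≥ T₀, ∀ q : Fin 5 ⊕ Fin r → ℤ,
          (∀ i, |(q i : ℝ)| ≤ T ∧ ‖(q i : ℤ_[p]) - α i‖ ≤ T ^ (-σ)) →
          ∀ a : ℤ, c / T ^ (228 * r + 227) ≤ ‖form t q a‖) ∧
      (∀ (v : ℕ → ℝ) (τ θ : ℝ), (∀ j, 1 ≤ v j) → 0 ≤ τ → ExpLe v τ → θ < 1 →
        ∃ E : Set (Fin 5 ⊕ Fin r → ℝ), dimH E ≤ ENNReal.ofReal ((r + τ) / (1 - θ)) ∧
        ∀ β ∉ E, ∃ c' : ℝ, 0 < c' ∧ ∃ j₀ : ℕ, ∀ j ≥ j₀, ∀ q : Fin 5 ⊕ Fin r → ℤ,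
          (∀ i, |(q i : ℝ) - β i * v j| ≤ (v j) ^ θ) → ∀ a : ℤ, c' / (v j) ^ (228 * r + 227) ≤ ‖form t q a‖)) ∧
    (∀ s : ℝ, 0 < s → ExpLe (fun j : ℕ => ((j : ℝ) + 1) ^ s) (1 / s)) ∧
    (∀ b : ℝ, 1 < b → ExpLe (fun j : ℕ => b ^ j) 0) := by
  refine ⟨fun r t => ?_, fun s hs => Pool.Agent.V35.WM.expLe_pow s hs,
    fun b hb => Pool.Agent.V35.WM.expLe_geom b hb⟩
  obtain ⟨-, -, n3⟩ := DegreeAtMostThree.result
  obtain ⟨c, hc, h⟩ := n3 r
  simp only [form_eq]
  refine Pool.Agent.H223.PS.mz_mainC (nums t) r (228 * r + 227) hc fun X hX b hb hli => ?_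
  refine h t X hX (fun k => (pairs (b k)).1) (fun k => (pairs (b k)).2)
    (fun k => ⟨fun i => (hb k).1 _, fun i => (hb k).1 _, ?_⟩) ?_
  · have e1 : value (pairs (b k)).1 + ∑ i, ((pairs (b k)).2 i : ℂ) * t i =
        (b k none : ℂ) + ∑ w, (b k (some w) : ℂ) * nums t w := by
      have e2 := form_eq t (fun w => b k (some w)) (b k none)
      unfold Pool.Agent.H223.PS.valC at e2
      rw [← e2]
      unfold form value
      rfl
    rw [e1]
    exact (hb k).2
  · have h3 := hli.map' (pairs (r := r)) (LinearMap.ker_eq_bot.2 pairs_inj)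
    exact h3

end Pool.Agent.Results.MP_807c24_nt.RelationsInResidueClasses
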